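import Pool.Agent.N602.AS.EXI

/-!
Project AS (helper343), CRB: from the criterion to the achievement set (helper617)
-/

set_option autoImplicit false

open Filter Topology MeasureTheory Finset

namespace Pool.Agent.N617.AS

open Pool.Agent.N343.AS Pool.Agent.N602.AS.EXI

/-- the choice among the alternating vectors which gives `j` -/
def ch (j : ℤ) (i : ℕ) : Bool :=
  if 0 ≤ j then decide (i % 2 = 0 ∧ ((i / 2 : ℕ) : ℤ) < j)
  else decide (i % 2 = 1 ∧ ((i / 2 : ℕ) : ℤ) < -j)

/-- the partial sums of the choice -/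
def aa (j : ℤ) (K : ℕ) : ℤ := ∑ i ∈ range K, if ch j i then (-1 : ℤ) ^ i else 0

theorem aa_pos (j : ℤ) (hj : 0 ≤ j) (K : ℕ) : aa j K = min (((K + 1) / 2 : ℕ) : ℤ) j := by
  induction K with
  | zero => simp [aa, hj]
  | succ K ih =>
    unfold aa at ih ⊢
    rw [sum_range_succ, ih]
    unfold ch
    rw [if_pos hj]
    rcases Nat.even_or_odd' K with ⟨k, rfl | rfl⟩
    · have h1 : (-1 : ℤ) ^ (2 * k) = 1 := by rw [pow_mul]; norm_num
      rw [h1]
      simp only [decide_eq_true_eq]
      split_ifs with h <;> omega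
    · simp only [decide_eq_true_eq]
      rw [if_neg (by omega)]
      omega

theorem aa_neg (j : ℤ) (hj : ¬ 0 ≤ j) (K : ℕ) : aa j K = -min ((K / 2 : ℕ) : ℤ) (-j) := by
  induction K with
  | zero =>
    simp [aa]
    omega
  | succ K ih =>
    unfold aa at ih ⊢
    rw [sum_range_succ, ih]
    unfold ch
    rw [if_neg hj]
    rcases Nat.even_or_odd' K with ⟨k, rfl | rfl⟩
    · simp only [decide_eq_true_eq]
      rw [if_neg (by omega)]
      omega
    · have h1 : (-1 : ℤ) ^ (2 * k + 1) = -1 := by rw [pow_succ, pow_mul]; norm_num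
      rw [h1]
      simp only [decide_eq_true_eq]
      split_ifs with h <;> omega

theorem aa_abs (j : ℤ) (K : ℕ) : |aa j K| ≤ |j| := by
  by_cases hj : 0 ≤ j
  · rw [aa_pos j hj, abs_of_nonneg hj, abs_of_nonneg (by omega)]
    exact min_le_right _ _
  · rw [aa_neg j hj K, abs_of_neg (by omega : j < 0), abs_le]
    constructor <;> omega

theorem aa_full (j : ℤ) (M : ℕ) (h : |j| ≤ (M : ℤ)) : aa j (2 * M) = j := by
  have h1 := abs_le.1 h
  by_cases hj : 0 ≤ j
  · rw [aa_pos j hj]
    omega
  · rw [aa_neg j hj]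
    omega

theorem main : S_CRB := by
  classical
  intro n c X A hH x hx p hp
  obtain ⟨S, j, hS, hj, hp1, hp2⟩ := hp
  -- the choice
  obtain ⟨ε, hε⟩ : ∃ ε : ℕ → Bool, ∀ m, ε m =
      if m - st n A (lev n A m) < n (lev n A m) then
        decide (m - st n A (lev n A m) ∈ S (lev n A m))
      else ch (j (lev n A m)) (m - st n A (lev n A m) - n (lev n A m)) := ⟨_, fun _ => rfl⟩
  have hε1 : ∀ N k, k < n N → ε (st n A N + k) = decide (k ∈ S N) := by
    intro N k hk
    rw [hε, lev_eq n A N k (by omega), Nat.add_sub_cancel_left, if_pos hk]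
  have hε2 : ∀ N k, k < 2 * MM A N → ε (st n A N + (n N + k)) = ch (j N) k := by
    intro N k hk
    rw [hε, lev_eq n A N (n N + k) (by omega), Nat.add_sub_cancel_left, if_neg (by omega),
      Nat.add_sub_cancel_left]
  obtain ⟨y, hy⟩ : ∃ y : ℕ → ℝ × ℝ, y = fun m => if ε m then x m else 0 := ⟨_, rfl⟩
  -- sums inside a level
  have h1 : ∀ N K, K ≤ n N → ∑ k ∈ range K, y (st n A N + k) =
      (∑ k ∈ (range K).filter (fun k => k ∈ S N), c N k, 0) := by
    intro N K hK
    have e : ∀ k ∈ range K, y (st n A N + k) =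
        ((if k ∈ S N then c N k else 0 : ℝ), (0 : ℝ)) := by
      intro k hk
      have hk' : k < n N := lt_of_lt_of_le (mem_range.1 hk) hK
      rw [hy]
      dsimp only
      rw [(hx N).1 k hk', hε1 N k hk']
      by_cases h : k ∈ S N
      · simp [h]
      · simp [h]
        rfl
    rw [sum_congr rfl e]
    refine Prod.ext ?_ ?_
    · rw [Prod.fst_sum]
      dsimp only
      rw [sum_filter]
    · rw [Prod.snd_sum]
      dsimp only
      exact sum_const_zero
  have h2 : ∀ N K, K ≤ 2 * MM A N → ∑ k ∈ range K, y (st n A N + (n N + k)) =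
      ((aa (j N) K : ℝ) * X N, (aa (j N) K : ℝ) * (1 / 2) ^ N) := by
    intro N K hK
    have e : ∀ k ∈ range K, y (st n A N + (n N + k)) =
        (((if ch (j N) k then (-1 : ℤ) ^ k else 0 : ℤ) : ℝ) * X N,
          ((if ch (j N) k then (-1 : ℤ) ^ k else 0 : ℤ) : ℝ) * (1 / 2) ^ N) := by
      intro k hk
      have hk' : k < 2 * MM A N := lt_of_lt_of_le (mem_range.1 hk) hK
      rw [hy]
      dsimp only
      rw [hε2 N k hk', ← add_assoc, (hx N).2 k hk']
      split_ifs
      · push_cast
        rfl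
      · push_cast
        rw [zero_mul, zero_mul]
        rfl
    rw [sum_congr rfl e]
    unfold aa
    refine Prod.ext ?_ ?_
    · rw [Prod.fst_sum]
      dsimp only
      rw [← sum_mul]
      push_cast
      rfl
    · rw [Prod.snd_sum]
      dsimp only
      rw [← sum_mul]
      push_cast
      rfl
  have hfull : ∀ N, (range (n N)).filter (fun k => k ∈ S N) = S N := by
    intro N
    ext k
    rw [mem_filter]
    exact ⟨fun h => h.2, fun h => ⟨hS N h, h⟩⟩
  have hpart : ∀ K, ∑ m ∈ range (st n A K), y m =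
      (∑ N ∈ range K, (∑ k ∈ S N, c N k + (j N : ℝ) * X N),
        ∑ N ∈ range K, (j N : ℝ) * (1 / 2) ^ N) := by
    intro K
    induction K with
    | zero =>
      have : st n A 0 = 0 := by
        unfold st
        simp
      rw [this]
      simp only [range_zero, sum_empty]
      rfl
    | succ K ih =>
      rw [st_succ, sum_range_add, sum_range_add, ih, h1 K _ le_rfl, h2 K _ le_rfl,
        aa_full (j K) _ (hj K), hfull, sum_range_succ, sum_range_succ]
      refine Prod.ext ?_ ?_
      · simp only [Prod.fst_add]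
      · simp only [Prod.snd_add]
        ring
  -- the bound inside a level
  obtain ⟨b, hb⟩ : ∃ b : ℕ → ℝ, ∀ N, b N = ∑ k ∈ range (n N), c N k + |(j N : ℝ)| * (1 / 2) ^ N :=
    ⟨_, fun _ => rfl⟩
  have hcs : ∀ N, ∀ T ⊆ range (n N), 0 ≤ ∑ k ∈ T, c N k ∧
      ∑ k ∈ T, c N k ≤ ∑ k ∈ range (n N), c N k := by
    intro N T hT
    refine ⟨sum_nonneg fun k hk => (hH.cpos N k (mem_range.1 (hT hk))).le, ?_⟩
    exact sum_le_sum_of_subset_of_nonneg hT fun k hk _ => (hH.cpos N k (mem_range.1 hk)).le
  have hD : ∀ N K, K ≤ n N + 2 * MM A N → ‖∑ k ∈ range K, y (st n A N + k)‖ ≤ b N := by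
    intro N K hK
    have hpow : (0 : ℝ) ≤ (1 / 2) ^ N := by positivity
    have hjn : 0 ≤ |(j N : ℝ)| * (1 / 2) ^ N := by positivity
    rcases le_or_gt K (n N) with h | h
    · rw [h1 N K h, Prod.norm_mk, norm_zero, max_eq_left (norm_nonneg _)]
      have h3 := hcs N ((range K).filter (fun k => k ∈ S N)) (by
        intro k hk
        rw [mem_filter, mem_range] at hk
        rw [mem_range]
        omega)
      rw [Real.norm_of_nonneg h3.1, hb]
      linarith [h3.2]
    · obtain ⟨K', rfl⟩ := Nat.exists_eq_add_of_le h.le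
      have hK' : K' ≤ 2 * MM A N := by omega
      rw [sum_range_add, h1 N _ le_rfl, h2 N K' hK', hfull]
      have h3 := hcs N (S N) (hS N)
      have h4 : |((aa (j N) K' : ℤ) : ℝ)| ≤ |(j N : ℝ)| := by
        have := aa_abs (j N) K'
        exact_mod_cast this
      have h5 : |((aa (j N) K' : ℤ) : ℝ)| * (1 / 2) ^ N ≤ |(j N : ℝ)| * (1 / 2) ^ N :=
        mul_le_mul_of_nonneg_right h4 hpow
      rw [Prod.mk_add_mk, Prod.norm_mk, hb]
      apply max_le
      · have h6 : ‖∑ k ∈ S N, c N k + ((aa (j N) K' : ℤ) : ℝ) * X N‖ ≤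
            ∑ k ∈ S N, c N k + |((aa (j N) K' : ℤ) : ℝ)| * X N := by
          refine (norm_add_le _ _).trans ?_
          rw [Real.norm_of_nonneg h3.1, norm_mul, Real.norm_of_nonneg (hH.Xpos N).le,
            Real.norm_eq_abs]
        have h7 : |((aa (j N) K' : ℤ) : ℝ)| * X N ≤ |((aa (j N) K' : ℤ) : ℝ)| * (1 / 2) ^ N :=
          mul_le_mul_of_nonneg_left (hH.XY N) (abs_nonneg _)
        linarith [h3.2]
      · rw [zero_add, norm_mul, Real.norm_eq_abs, Real.norm_of_nonneg hpow]
        linarith [h3.1, h3.2]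
  have hb0 : Tendsto b atTop (𝓝 0) := by
    have e1 : Tendsto (fun N => ∑ k ∈ range (n N), c N k) atTop (𝓝 0) :=
      hH.csum.tendsto_atTop_zero
    have e2 : Tendsto (fun N => (j N : ℝ) * (1 / 2) ^ N) atTop (𝓝 0) := by
      have h3 := (hp2.comp (tendsto_add_atTop_nat 1)).sub hp2
      rw [sub_self] at h3
      refine h3.congr fun N => ?_
      simp only [Function.comp_apply]
      rw [sum_range_succ]
      ring
    have e3 := e1.add e2.abs
    rw [abs_zero, add_zero] at e3
    refine e3.congr fun N => ?_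
    rw [hb, abs_mul, abs_of_nonneg (by positivity : (0 : ℝ) ≤ (1 / 2) ^ N)]
  -- the levels
  have hlev1 : ∀ m, st n A (lev n A m) ≤ m := by
    intro m
    have h3 : st n A 0 ≤ m := by
      unfold st
      simp
    exact Nat.findGreatest_spec (P := fun N => st n A N ≤ m) (Nat.zero_le m) h3
  have hlev2 : ∀ m, m < st n A (lev n A m + 1) := by
    intro m
    by_contra hcon
    push Not at hcon
    have h3 : lev n A m + 1 ≤ m := ((st_mono n A).le_apply (x := lev n A m + 1)).trans hcon
    have h4 : lev n A m + 1 ≤ lev n A m :=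
      Nat.le_findGreatest (P := fun N => st n A N ≤ m) h3 hcon
    omega
  have hlev3 : Tendsto (lev n A) atTop atTop := by
    rw [tendsto_atTop]
    intro N
    filter_upwards [eventually_ge_atTop (st n A N)] with m hm
    exact Nat.le_findGreatest (P := fun N => st n A N ≤ m)
      (((st_mono n A).le_apply (x := N)).trans hm) hm
  have hlim1 : Tendsto (fun K => ∑ m ∈ range (st n A K), y m) atTop (𝓝 p) := by
    simp only [hpart]
    exact hp1.prodMk_nhds hp2
  refine ⟨ε, ?_⟩
  have hdec : ∀ m, ∑ i ∈ range m, y i = ∑ i ∈ range (st n A (lev n A m)), y i +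
      ∑ k ∈ range (m - st n A (lev n A m)), y (st n A (lev n A m) + k) := by
    intro m
    rw [← sum_range_add, Nat.add_sub_cancel' (hlev1 m)]
  have hlim2 : Tendsto (fun m => ∑ k ∈ range (m - st n A (lev n A m)),
      y (st n A (lev n A m) + k)) atTop (𝓝 0) := by
    refine squeeze_zero_norm (fun m => ?_) (hb0.comp hlev3)
    refine hD _ _ ?_
    have h3 := hlev1 m
    have h4 := hlev2 m
    rw [st_succ] at h4
    omega
  have hfin := (hlim1.comp hlev3).add hlim2
  rw [add_zero] at hfin
  have hgoal : Tendsto (fun m => ∑ i ∈ range m, y i) atTop (𝓝 p) :=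
    hfin.congr fun m => (hdec m).symm
  rw [hy] at hgoal
  exact hgoal

end Pool.Agent.N617.AS
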